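import Pool.Agent.H19.KL.Stmts

/-!
# Project KL, module EXT: the Poincare inequality for functions of exponential growth
-/

set_option autoImplicit false

open MeasureTheory Set Filter Topology
open scoped ContDiff

namespace Pool.Agent.H19.KL

open Pool.Agent.H84 Pool.Agent.H84.Sym Pool.Agent.H84.Sym.P2x Pool.Agent.H84.Sym.C29

theorem ext_thm (E : Type) [NormedAddCommGroup E] [InnerProductSpace ℝ E]
    [FiniteDimensional ℝ E] [MeasurableSpace E] [BorelSpace E] : EXTStmt E := by
  intro U t C L hU hprob hP f hf hfg hdg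
  obtain ⟨A, χ, hχ⟩ := exists_cutoff (stdOrthonormalBasis ℝ E)
  have hGf : GC f := ⟨hf.continuous, hfg⟩
  have hdc : Continuous (fderiv ℝ f) := hf.continuous_fderiv (by norm_num)
  have hGd : GC (fun x => ‖fderiv ℝ f x‖) := ⟨hdc.norm, hdg⟩
  have hχ1 : ∀ x : E, ∀ᶠ k : ℕ in atTop, χ k x = 1 := by
    intro x
    obtain ⟨K, hK⟩ := exists_nat_ge (Real.log (1 + ‖x‖ ^ 2))
    filter_upwards [eventually_ge_atTop K] with k hk
    apply (hχ k).2.2.1
    have : (K : ℝ) ≤ k := by exact_mod_cast hk
    linarith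
  have hcont : ∀ k, Continuous (χ k) := fun k => (hχ k).1.1.continuous
  have hχs : ∀ k, ContDiff ℝ 1 (χ k) := fun k =>
    (hχ k).1.1.of_le (by exact_mod_cast (le_top : (1 : ℕ∞) ≤ ⊤))
  have hχa : ∀ k x, |χ k x| ≤ 1 := fun k x => by
    have h1 := (hχ k).2.1 x
    rw [abs_le]
    constructor <;> linarith [h1.1, h1.2]
  have hχd : ∀ k x, ‖fderiv ℝ (χ k) x‖ ≤ A / (k + 1) := by
    intro k x
    refine le_trans ?_ ((hχ k).2.2.2.1 x)
    have h1 := norm_nonneg (fderiv ℝ (χ k) x)
    nlinarith [norm_nonneg x]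
  have hA : 0 ≤ A := by
    have h1 := (norm_nonneg _).trans (hχd 0 0)
    simpa using h1
  have hχd' : ∀ k x, ‖fderiv ℝ (χ k) x‖ ≤ A := by
    intro k x
    refine (hχd k x).trans (div_le_self hA ?_)
    have : (0 : ℝ) ≤ k := Nat.cast_nonneg k
    linarith
  have hder : ∀ k x, fderiv ℝ (fun x => f x * χ k x) x =
      f x • fderiv ℝ (χ k) x + χ k x • fderiv ℝ f x := by
    intro k x
    exact fderiv_fun_mul (hf.differentiable (by norm_num) x) ((hχs k).differentiable (by norm_num) x)
  have hk1 : ∀ k, ContDiff ℝ 1 (fun x => f x * χ k x) := fun k => hf.mul (hχs k)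
  have hkc : ∀ k, HasCompactSupport (fun x => f x * χ k x) := fun k => (hχ k).1.2.mul_left
  have hineq : ∀ k, (∫ x, (f x * χ k x) ^ 2 ∂(mu U)) - (∫ x, f x * χ k x ∂(mu U)) ^ 2 ≤
      L * ∫ x, ‖fderiv ℝ (fun x => f x * χ k x) x‖ ^ 2 ∂(mu U) := by
    intro k
    have h := hP (fun x => f x * χ k x) (hk1 k) (hkc k)
    simpa using h
  have hb : ∀ k x, |f x * χ k x| ≤ |f x| := fun k x => by
    rw [abs_mul]
    exact mul_le_of_le_one_right (abs_nonneg _) (hχa k x)
  have t1 : Tendsto (fun k => ∫ x, (f x * χ k x) ^ 2 ∂(mu U)) atTop (𝓝 (∫ x, f x ^ 2 ∂(mu U))) := by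
    refine tendsto_integral_of_dominated_convergence (fun x => f x ^ 2)
      (fun k => ((hf.continuous.mul (hcont k)).pow 2).aestronglyMeasurable)
      (hGf.sq.integrable hU)
      (fun k => Eventually.of_forall fun x => ?_)
      (Eventually.of_forall fun x => ?_)
    · rw [Real.norm_eq_abs, abs_of_nonneg (sq_nonneg _)]
      exact sq_le_sq.2 (hb k x)
    · apply tendsto_const_nhds.congr'
      filter_upwards [hχ1 x] with k hk
      rw [hk, mul_one]
  have t2 : Tendsto (fun k => ∫ x, f x * χ k x ∂(mu U)) atTop (𝓝 (∫ x, f x ∂(mu U))) := by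
    refine tendsto_integral_of_dominated_convergence (fun x => |f x|)
      (fun k => (hf.continuous.mul (hcont k)).aestronglyMeasurable)
      (hGf.abs.integrable hU)
      (fun k => Eventually.of_forall fun x => ?_)
      (Eventually.of_forall fun x => ?_)
    · rw [Real.norm_eq_abs]
      exact hb k x
    · apply tendsto_const_nhds.congr'
      filter_upwards [hχ1 x] with k hk
      rw [hk, mul_one]
  have t3 : Tendsto (fun k => ∫ x, ‖fderiv ℝ (fun x => f x * χ k x) x‖ ^ 2 ∂(mu U)) atTop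
      (𝓝 (∫ x, ‖fderiv ℝ f x‖ ^ 2 ∂(mu U))) := by
    have hG : GC (fun x => (|f x| * A + ‖fderiv ℝ f x‖) ^ 2) :=
      ((hGf.abs.mul (GC.const A)).add hGd).sq
    refine tendsto_integral_of_dominated_convergence (fun x => (|f x| * A + ‖fderiv ℝ f x‖) ^ 2)
      (fun k => (((hk1 k).continuous_fderiv (by norm_num)).norm.pow 2).aestronglyMeasurable)
      (hG.integrable hU)
      (fun k => Eventually.of_forall fun x => ?_)
      (Eventually.of_forall fun x => ?_)
    · rw [Real.norm_eq_abs, abs_of_nonneg (sq_nonneg _)]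
      have h1 : ‖fderiv ℝ (fun x => f x * χ k x) x‖ ≤ |f x| * A + ‖fderiv ℝ f x‖ := by
        rw [hder]
        refine (norm_add_le _ _).trans (add_le_add ?_ ?_)
        · rw [norm_smul, Real.norm_eq_abs]
          exact mul_le_mul_of_nonneg_left (hχd' k x) (abs_nonneg _)
        · rw [norm_smul, Real.norm_eq_abs]
          exact mul_le_of_le_one_left (norm_nonneg _) (hχa k x)
      exact pow_le_pow_left₀ (norm_nonneg _) h1 2
    · have h1 : Tendsto (fun k => fderiv ℝ (χ k) x) atTop (𝓝 0) := by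
        rw [tendsto_zero_iff_norm_tendsto_zero]
        have h2 : Tendsto (fun k : ℕ => A / ((k : ℝ) + 1)) atTop (𝓝 0) := by
          have := (tendsto_one_div_add_atTop_nhds_zero_nat (𝕜 := ℝ)).const_mul A
          simpa [div_eq_mul_inv] using this
        exact squeeze_zero (fun k => norm_nonneg _) (fun k => hχd k x) h2
      have h2 : Tendsto (fun k => χ k x) atTop (𝓝 1) := by
        apply tendsto_const_nhds.congr'
        filter_upwards [hχ1 x] with k hk
        rw [hk]
      have h3 : Tendsto (fun k => f x • fderiv ℝ (χ k) x + χ k x • fderiv ℝ f x) atTop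
          (𝓝 (f x • (0 : E →L[ℝ] ℝ) + (1 : ℝ) • fderiv ℝ f x)) :=
        (h1.const_smul (f x)).add (h2.smul_const _)
      rw [smul_zero, zero_add, one_smul] at h3
      have h4 := (h3.norm).pow 2
      refine h4.congr fun k => ?_
      rw [hder]
  exact le_of_tendsto_of_tendsto' (t1.sub (t2.pow 2)) (t3.const_mul L) hineq

end Pool.Agent.H19.KL
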