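import Pool.Agent.H19.KL.Stmts

/-!
# Project KL, module VAR: variance of linear functionals
-/

set_option autoImplicit false

open MeasureTheory Set
open scoped ContDiff

namespace Pool.Agent.H19.KL

open Pool.Agent.H84 Pool.Agent.H84.Sym Pool.Agent.H84.Sym.P2x Pool.Agent.H84.Sym.C29

theorem var_thm (E : Type) [NormedAddCommGroup E] [InnerProductSpace ℝ E]
    [FiniteDimensional ℝ E] [MeasurableSpace E] [BorelSpace E] : VARStmt E := by
  intro V t C hV hprob w
  have hder : ∀ x : E, HasFDerivAt (fun x : E => (inner ℝ x w : ℝ)) (innerSL ℝ w) x := by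
    intro x
    have h1 : HasFDerivAt (fun x : E => (inner ℝ w x : ℝ)) (innerSL ℝ w) x :=
      (innerSL ℝ w).hasFDerivAt
    have e : (fun x : E => (inner ℝ x w : ℝ)) = fun x => inner ℝ w x := by
      ext x
      exact real_inner_comm _ _
    rw [e]
    exact h1
  have hg : Gr (fun x : E => (inner ℝ x w : ℝ)) := by
    refine Gr.of_le (Gr.mul (Gr.nrm (H := E)) (Gr.of_bdd (H := E) (F := fun _ => ‖w‖) (A := ‖w‖)
      fun _ => by simp)) fun x => ?_
    rw [abs_of_nonneg (mul_nonneg (norm_nonneg x) (norm_nonneg w))]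
    exact abs_real_inner_le_norm _ _
  have h := sec_bl (V := V) (k := fun x : E => (inner ℝ x w : ℝ)) (q := fun _ => ‖w‖ ^ 2 / t)
    (s := 0) hV (contDiff_id.inner ℝ contDiff_const) hg continuous_const
    (Gr.of_bdd (A := |‖w‖ ^ 2 / t|) fun _ => le_rfl) (fun x η => by
      rw [(hder x).fderiv, innerSL_apply_apply]
      have h1 := hV.hess x η
      have h2 := real_inner_le_norm w η
      have ht := hV.pos
      have h3 : 0 ≤ (‖w‖ - t * ‖η‖) ^ 2 / t := div_nonneg (sq_nonneg _) ht.le
      have h4 : (‖w‖ - t * ‖η‖) ^ 2 / t = ‖w‖ ^ 2 / t - 2 * (‖w‖ * ‖η‖) + t * ‖η‖ ^ 2 := by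
        field_simp
        ring
      linarith)
  simpa using h

end Pool.Agent.H19.KL
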